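import Pool.Agent.Run7.h74.UC.Iface
import Pool.Agent.Q176.UM.MBx

/-! # Piece ERT of project UC (helper74): the truncation error for the integral (helper299) -/

set_option autoImplicit false

namespace Run7.h299.UC

open Filter Topology MeasureTheory Complex
open Pool.Agent.Q97.UM Pool.Agent.Q176.UM
open Pool.Agent.Run7.h74.UC

noncomputable section

theorem zf_smul (D : ℝ) (x : ℂ) (a a2 : ℕ → ℂ) (j : ℕ) (t : ℝ) :
    zf D (fun n => x * a n) (fun n => x * a2 n) j t = x * zf D a a2 j t := by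
  have h1 : ∀ n, qb D (fun n => x * a n) (fun n => x * a2 n) j n = x * qb D a a2 j n := by
    intro n
    unfold qb
    split_ifs <;> ring
  unfold zf dp
  rw [Finset.mul_sum]
  exact Finset.sum_congr rfl fun n _ => by rw [h1]; ring

theorem pw_norm' (D κ : ℝ) (a a2 : ℕ → ℂ) (j : ℕ) (t : ℝ) :
    ‖pw D κ a a2 (j + 1) t‖ ^ 2 = (20 * ‖zf D a a2 j t‖ / R9 κ j) ^ (2 * s7 j) := by
  unfold pw
  rw [norm_pow, norm_div, norm_mul, Complex.norm_natCast, ← pow_mul, mul_comm (s7 j) 2]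
  norm_num

/-- geometric sums -/
theorem geo {B : ℝ} (hB : 1 / 2 ≤ B) (j₀ J : ℕ) :
    ∑ j ∈ Finset.Ico j₀ J, Real.exp (-(B * j)) ≤ 3 * Real.exp (-(B * j₀)) := by
  rw [Finset.sum_Ico_eq_sum_range]
  have h0 : 0 ≤ Real.exp (-B) := (Real.exp_pos _).le
  have h1 : Real.exp (-B) ≤ 2 / 3 := by
    have h2 : (3 : ℝ) / 2 ≤ Real.exp B := by
      have := Real.add_one_le_exp B
      linarith
    rw [Real.exp_neg]
    have h3 : (Real.exp B)⁻¹ ≤ (3 / 2 : ℝ)⁻¹ := inv_anti₀ (by norm_num) h2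
    norm_num at h3
    exact h3
  have e : ∀ i : ℕ, Real.exp (-(B * ((j₀ + i : ℕ) : ℝ))) = Real.exp (-(B * j₀)) * Real.exp (-B) ^ i := by
    intro i
    rw [← Real.exp_nat_mul, ← Real.exp_add]
    congr 1
    push_cast
    ring
  rw [Finset.sum_congr rfl fun i _ => e i, ← Finset.mul_sum]
  have h4 : ∑ i ∈ Finset.range (J - j₀), Real.exp (-B) ^ i ≤ 3 := by
    have h5 := Summable.sum_le_tsum (Finset.range (J - j₀)) (fun i _ => pow_nonneg h0 i)
      (summable_geometric_of_lt_one h0 (by linarith))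
    rw [tsum_geometric_of_lt_one h0 (by linarith)] at h5
    refine h5.trans ?_
    have h6 : (1 - Real.exp (-B))⁻¹ ≤ (1 / 3 : ℝ)⁻¹ := inv_anti₀ (by norm_num) (by linarith)
    norm_num at h6
    exact h6
  have h7 := mul_le_mul_of_nonneg_left h4 (Real.exp_pos (-(B * j₀))).le
  linarith

/-- mean value of polynomials on `[T/2, 3T]` -/
theorem mvl3 (hMVL : S_MVL) {T : ℝ} (hT : 32 ≤ T) {N : ℕ} (hN : (N : ℝ) ≤ (T / 2) ^ (1 / 4 : ℝ))
    (b : ℕ → ℂ) : ∫ t in (T / 2)..(3 * T), ‖dp N b t‖ ^ 2 ≤ 7 * T * N2 N b := by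
  have hc : Continuous fun t => ‖dp N b t‖ ^ 2 := (dp_cont N b).norm.pow 2
  have hi : ∀ x y : ℝ, IntervalIntegrable (fun t => ‖dp N b t‖ ^ 2) volume x y := fun x y => hc.intervalIntegrable x y
  have m1 : (T / 2) ^ (1 / 4 : ℝ) ≤ T ^ (1 / 4 : ℝ) := Real.rpow_le_rpow (by linarith) (by linarith) (by norm_num)
  have m2 : T ^ (1 / 4 : ℝ) ≤ (2 * T) ^ (1 / 4 : ℝ) := Real.rpow_le_rpow (by linarith) (by linarith) (by norm_num)
  have a1 := (hMVL (T / 2) (by linarith) N hN b).2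
  have a2 := (hMVL T (by linarith) N (hN.trans m1) b).2
  have a3 := (hMVL (2 * T) (by linarith) N (hN.trans (m1.trans m2)) b).2
  rw [show 2 * (T / 2) = T by ring] at a1
  have e1 := intervalIntegral.integral_add_adjacent_intervals (hi (T / 2) T) (hi T (2 * T))
  have e2 := intervalIntegral.integral_add_adjacent_intervals (hi (T / 2) (2 * T)) (hi (2 * T) (3 * T))
  have e3 : ∫ t in (2 * T)..(3 * T), ‖dp N b t‖ ^ 2 ≤ ∫ t in (2 * T)..(2 * (2 * T)), ‖dp N b t‖ ^ 2 :=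
    intervalIntegral.integral_mono_interval le_rfl (by linarith) (by linarith)
      (Eventually.of_forall fun t => by positivity) (hi _ _)
  linarith

/-- transfer of a bound from the mean to the integral -/
theorem transf (hMVL : S_MVL) {T : ℝ} (hT : 32 ≤ T) {N : ℕ} (hN : (N : ℝ) ≤ (T / 2) ^ (1 / 4 : ℝ))
    {c : ℕ → ℂ} {F : ℝ → ℝ} (hF : ∀ t, ‖dp N c t‖ ^ 2 = F t) {W : ℝ} (hW : MB F W) :
    ∫ t in (T / 2)..(3 * T), F t ≤ 14 * T * W := by
  have e : (fun t => ‖dp N c t‖ ^ 2) = F := funext hF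
  have h1 := mvl3 hMVL hT hN c
  have h2 : MB (fun t => ‖dp N c t‖ ^ 2) W := by rwa [e]
  have h3 := N2_le hMVL h2
  rw [e] at h1
  have h4 : 7 * T * N2 N c ≤ 7 * T * (2 * W) := mul_le_mul_of_nonneg_left h3 (by linarith)
  linarith

/-- products of Dirichlet polynomials with coefficients in `[1, M]` -/
theorem len_le {T δ K : ℝ} (hT : 4 ≤ T) {M : ℕ} (hM : 1 ≤ M) (hK : K * δ ≤ 1 / 8)
    (hl : Real.log M ≤ K * (δ * Real.log T)) : (M : ℝ) ≤ (T / 2) ^ (1 / 4 : ℝ) := by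
  have hM0 : (0 : ℝ) < M := by exact_mod_cast hM
  have hlT : 0 ≤ Real.log T := Real.log_nonneg (by linarith)
  have h1 : Real.log M ≤ Real.log ((T / 2) ^ (1 / 4 : ℝ)) := by
    rw [Real.log_rpow (by linarith), Real.log_div (by linarith) (by norm_num)]
    have h2 : K * (δ * Real.log T) ≤ 1 / 8 * Real.log T := by
      have := mul_le_mul_of_nonneg_right hK hlT
      linarith
    have h3 : 2 * Real.log 2 ≤ Real.log T := by
      have : Real.log 4 ≤ Real.log T := Real.log_le_log (by norm_num) hT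
      have h4 : Real.log 4 = 2 * Real.log 2 := by
        rw [show (4 : ℝ) = 2 ^ 2 by norm_num, Real.log_pow]
        norm_num
      linarith
    linarith
  exact (Real.log_le_log_iff hM0 (Real.rpow_pos_of_pos (by linarith) _)).1 h1

theorem t_ERT : J_ERT := by
  intro hPTW hSTRA hCOF hDPM hMVL A hA
  obtain ⟨P, hP1, hPTW⟩ := hPTW A hA
  obtain ⟨κ₀, hκ₀, hSTRA⟩ := hSTRA A hA
  refine ⟨κ₀, hκ₀, fun κ hκ => ?_⟩
  have hκ4 : 4 ≤ κ := hκ₀.trans hκ
  obtain ⟨CS, hCS1, hSTRA⟩ := hSTRA κ hκ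
  have hP0 : 0 ≤ P := by linarith
  have hCS0 : 0 ≤ CS := by linarith
  refine ⟨P * (7 + 42 * CS + 168 * P * CS), 1 / (8 * (52 * κ + 5)), ?_, by positivity, ?_⟩
  · have : 0 ≤ 168 * P * CS := by positivity
    nlinarith
  intro δ hδ0 hδ
  have hδ' : (52 * κ + 5) * δ ≤ 1 / 8 := by
    rw [le_div_iff₀ (by positivity)] at hδ
    linarith
  have ev1 : ∀ᶠ T : ℝ in atTop, 1 ≤ δ * Real.log T :=
    (Real.tendsto_log_atTop.const_mul_atTop hδ0).eventually_ge_atTop 1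
  filter_upwards [ev1, eventually_ge_atTop (32 : ℝ)] with T hD hT a a2 ha ha2 N b hN1 hN hb j₀
  obtain ⟨D, hDdef⟩ : ∃ D : ℝ, D = δ * Real.log T := ⟨_, rfl⟩
  rw [← hDdef] at hD ⊢
  have hT0 : 0 < T := by linarith
  have hN0 : (0 : ℝ) < N := by exact_mod_cast hN1
  have hlN : Real.log N ≤ D := by
    rw [hDdef]
    have := Real.log_le_log hN0 hN
    rwa [Real.log_rpow hT0] at this
  have hκ1 : 1 ≤ κ := by linarith
  -- lengths
  have hNl : (N : ℝ) ≤ (T / 2) ^ (1 / 4 : ℝ) := by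
    refine len_le (K := 1) (δ := δ) (by linarith) hN1 ?_ (by rw [← hDdef]; linarith)
    nlinarith
  have n2 := N2_nn N b
  -- notation
  obtain ⟨J, hJ⟩ : ∃ J, J = JB D := ⟨_, rfl⟩
  have hSTR := fun j' j => hSTRA D hD a a2 ha ha2 N b hN1 hlN hb j' j
  have hzc : ∀ l : ℕ, Continuous (zf D a a2 l) := fun l => zf_cont _ _ _ _
  have hBc := dp_cont N b
  have hYc : ∀ l : ℕ, Continuous fun t => (20 * ‖zf D a a2 l t‖ / R9 κ l) ^ (2 * s7 l) := fun l =>
    ((continuous_const.mul (hzc l).norm).div_const _).pow _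
  have hSc : ∀ (c : ℝ) (j : ℕ), Continuous fun t => Real.exp (c * ∑ l ∈ Finset.range (j + 1), ‖zf D a a2 l t‖) := fun c j =>
    Real.continuous_exp.comp (continuous_const.mul (continuous_finsetSum _ fun l _ => (hzc l).norm))
  have hE1c : Continuous (E1 D κ a a2 j₀) := Ef_cont _ _ _ _ _
  have hE2c : Continuous (E2 D κ a a2 j₀) := Ef_cont _ _ _ _ _
  have hS0 : ∀ (j : ℕ) (t : ℝ), 0 ≤ ∑ l ∈ Finset.range (j + 1), ‖zf D a a2 l t‖ := fun j t =>
    Finset.sum_nonneg fun l _ => norm_nonneg _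
  have hY0 : ∀ (j : ℕ) (t : ℝ), 0 ≤ (20 * ‖zf D a a2 j t‖ / R9 κ j) ^ (2 * s7 j) := fun j t => by positivity
  -- the products as truncated exponentials
  have e1 : ∀ t, E1 D κ a a2 j₀ t = ∏ l ∈ Finset.Ico j₀ (JB D), TEx (R9 κ l) (I / 2 * zf D a a2 l t) := by
    intro t
    unfold E1 Ef
    exact Finset.prod_congr rfl fun l _ => by rw [zf_smul]
  have e2 : ∀ t, E2 D κ a a2 j₀ t = ∏ l ∈ Finset.Ico j₀ (JB D), TEx (R9 κ l) (-(I / 2) * zf D a a2 l t) := by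
    intro t
    unfold E2 Ef
    exact Finset.prod_congr rfl fun l _ => by rw [zf_smul]
  have hpt := fun t => hPTW κ hκ4 (JB D) j₀ (fun l => zf D a a2 l t)
  -- first kind of mean values
  have w1 : ∀ j : ℕ, MB (fun t => ‖dp N b t‖ ^ 2 * (20 * ‖zf D a a2 j t‖ / R9 κ j) ^ (2 * s7 j))
      (CS * Real.exp (-(A * j)) * N2 N b) := by
    intro j
    refine MB.mono ((hBc.norm.pow 2).mul (hYc j)) ?_ (fun t => ?_) (hSTR j j)
    · exact (((hBc.norm.pow 2).mul (hSc 6 j)).mul (continuous_const.add (hYc j))).mul (hYc j)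
    · refine mul_le_mul_of_nonneg_right ?_ (hY0 j t)
      have h1 : 1 ≤ Real.exp (6 * ∑ l ∈ Finset.range (j + 1), ‖zf D a a2 l t‖) :=
        Real.one_le_exp (by have := hS0 j t; linarith)
      have h2 : 1 ≤ 1 + (20 * ‖zf D a a2 j t‖ / R9 κ j) ^ (2 * s7 j) := by
        have := hY0 j t
        linarith
      have h3 : 0 ≤ ‖dp N b t‖ ^ 2 := by positivity
      calc ‖dp N b t‖ ^ 2 = ‖dp N b t‖ ^ 2 * 1 * 1 := by ring
        _ ≤ ‖dp N b t‖ ^ 2 * Real.exp (6 * ∑ l ∈ Finset.range (j + 1), ‖zf D a a2 l t‖) *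
          (1 + (20 * ‖zf D a a2 j t‖ / R9 κ j) ^ (2 * s7 j)) := by gcongr
  -- pairs
  have w2 : ∀ j j' : ℕ, MB (fun t => ‖dp N b t‖ ^ 2 * (Real.exp (2 * ∑ l ∈ Finset.range (j' + 1), ‖zf D a a2 l t‖) *
      (20 * ‖zf D a a2 j' t‖ / R9 κ j') ^ (2 * s7 j')) * (20 * ‖zf D a a2 j t‖ / R9 κ j) ^ (2 * s7 j))
      (CS * (Real.exp (-(A / 2 * j)) * Real.exp (-(A / 2 * j'))) * N2 N b) := by
    intro j j'
    have hc : Continuous fun t => ‖dp N b t‖ ^ 2 * (Real.exp (2 * ∑ l ∈ Finset.range (j' + 1), ‖zf D a a2 l t‖) *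
      (20 * ‖zf D a a2 j' t‖ / R9 κ j') ^ (2 * s7 j')) * (20 * ‖zf D a a2 j t‖ / R9 κ j) ^ (2 * s7 j) :=
      ((hBc.norm.pow 2).mul ((hSc 2 j').mul (hYc j'))).mul (hYc j)
    rcases le_total j j' with hjj | hjj
    · -- j ≤ j'
      refine MB.le ?_ (MB.mono hc ?_ (fun t => ?_) (hSTR j j'))
      · have : Real.exp (-(A * j')) ≤ Real.exp (-(A / 2 * j)) * Real.exp (-(A / 2 * j')) := by
          rw [← Real.exp_add, Real.exp_le_exp]
          have h1 : (j : ℝ) ≤ j' := by exact_mod_cast hjj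
          nlinarith
        gcongr
      · exact (((hBc.norm.pow 2).mul (hSc 6 j')).mul (continuous_const.add (hYc j))).mul (hYc j')
      · have h0 := hS0 j' t
        have h1 : Real.exp (2 * ∑ l ∈ Finset.range (j' + 1), ‖zf D a a2 l t‖) ≤
            Real.exp (6 * ∑ l ∈ Finset.range (j' + 1), ‖zf D a a2 l t‖) := by
          rw [Real.exp_le_exp]
          linarith
        have h2 : (20 * ‖zf D a a2 j t‖ / R9 κ j) ^ (2 * s7 j) ≤ 1 + (20 * ‖zf D a a2 j t‖ / R9 κ j) ^ (2 * s7 j) := by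
          linarith
        have h3 := hY0 j t
        have h4 := hY0 j' t
        calc ‖dp N b t‖ ^ 2 * (Real.exp (2 * ∑ l ∈ Finset.range (j' + 1), ‖zf D a a2 l t‖) *
              (20 * ‖zf D a a2 j' t‖ / R9 κ j') ^ (2 * s7 j')) * (20 * ‖zf D a a2 j t‖ / R9 κ j) ^ (2 * s7 j)
            = ‖dp N b t‖ ^ 2 * Real.exp (2 * ∑ l ∈ Finset.range (j' + 1), ‖zf D a a2 l t‖) *
              (20 * ‖zf D a a2 j t‖ / R9 κ j) ^ (2 * s7 j) * (20 * ‖zf D a a2 j' t‖ / R9 κ j') ^ (2 * s7 j') := by ring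
          _ ≤ ‖dp N b t‖ ^ 2 * Real.exp (6 * ∑ l ∈ Finset.range (j' + 1), ‖zf D a a2 l t‖) *
              (1 + (20 * ‖zf D a a2 j t‖ / R9 κ j) ^ (2 * s7 j)) * (20 * ‖zf D a a2 j' t‖ / R9 κ j') ^ (2 * s7 j') := by
            gcongr
    · -- j' ≤ j
      refine MB.le ?_ (MB.mono hc ?_ (fun t => ?_) (hSTR j' j))
      · have : Real.exp (-(A * j)) ≤ Real.exp (-(A / 2 * j)) * Real.exp (-(A / 2 * j')) := by
          rw [← Real.exp_add, Real.exp_le_exp]
          have h1 : (j' : ℝ) ≤ j := by exact_mod_cast hjj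
          nlinarith
        gcongr
      · exact (((hBc.norm.pow 2).mul (hSc 6 j)).mul (continuous_const.add (hYc j'))).mul (hYc j)
      · have h0 := hS0 j t
        have h0' := hS0 j' t
        have h00 : ∑ l ∈ Finset.range (j' + 1), ‖zf D a a2 l t‖ ≤ ∑ l ∈ Finset.range (j + 1), ‖zf D a a2 l t‖ :=
          Finset.sum_le_sum_of_subset_of_nonneg (Finset.range_mono (by omega)) fun l _ _ => norm_nonneg _
        have h1 : Real.exp (2 * ∑ l ∈ Finset.range (j' + 1), ‖zf D a a2 l t‖) ≤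
            Real.exp (6 * ∑ l ∈ Finset.range (j + 1), ‖zf D a a2 l t‖) := by
          rw [Real.exp_le_exp]
          linarith
        have h2 : (20 * ‖zf D a a2 j' t‖ / R9 κ j') ^ (2 * s7 j') ≤ 1 + (20 * ‖zf D a a2 j' t‖ / R9 κ j') ^ (2 * s7 j') := by
          linarith
        have h3 := hY0 j t
        have h4 := hY0 j' t
        calc ‖dp N b t‖ ^ 2 * (Real.exp (2 * ∑ l ∈ Finset.range (j' + 1), ‖zf D a a2 l t‖) *
              (20 * ‖zf D a a2 j' t‖ / R9 κ j') ^ (2 * s7 j')) * (20 * ‖zf D a a2 j t‖ / R9 κ j) ^ (2 * s7 j)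
            = ‖dp N b t‖ ^ 2 * Real.exp (2 * ∑ l ∈ Finset.range (j' + 1), ‖zf D a a2 l t‖) *
              (20 * ‖zf D a a2 j' t‖ / R9 κ j') ^ (2 * s7 j') * (20 * ‖zf D a a2 j t‖ / R9 κ j) ^ (2 * s7 j) := by ring
          _ ≤ ‖dp N b t‖ ^ 2 * Real.exp (6 * ∑ l ∈ Finset.range (j + 1), ‖zf D a a2 l t‖) *
              (1 + (20 * ‖zf D a a2 j' t‖ / R9 κ j') ^ (2 * s7 j')) * (20 * ‖zf D a a2 j t‖ / R9 κ j) ^ (2 * s7 j) := by
            gcongr
  -- second kind of mean values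
  have w3 : ∀ j : ℕ, MB (fun t => ‖E1 D κ a a2 j₀ t * E2 D κ a a2 j₀ t‖ ^ 2 * ‖dp N b t‖ ^ 2 *
      (20 * ‖zf D a a2 j t‖ / R9 κ j) ^ (2 * s7 j))
      (P * (CS * Real.exp (-(A * j)) * N2 N b +
        ∑ j' ∈ Finset.Ico j₀ (JB D), CS * (Real.exp (-(A / 2 * j)) * Real.exp (-(A / 2 * j'))) * N2 N b)) := by
    intro j
    have c1 : Continuous fun t => ‖dp N b t‖ ^ 2 * (20 * ‖zf D a a2 j t‖ / R9 κ j) ^ (2 * s7 j) :=
      (hBc.norm.pow 2).mul (hYc j)
    have c2 : ∀ j' ∈ Finset.Ico j₀ (JB D), Continuous fun t => ‖dp N b t‖ ^ 2 *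
        (Real.exp (2 * ∑ l ∈ Finset.range (j' + 1), ‖zf D a a2 l t‖) *
        (20 * ‖zf D a a2 j' t‖ / R9 κ j') ^ (2 * s7 j')) * (20 * ‖zf D a a2 j t‖ / R9 κ j) ^ (2 * s7 j) := fun j' _ =>
      ((hBc.norm.pow 2).mul ((hSc 2 j').mul (hYc j'))).mul (hYc j)
    have y1 := MB.cmul (c := P) hP0 (MB.add c1 (continuous_finsetSum _ c2) (w1 j) (MB.sum _ c2 fun j' _ => w2 j j'))
    refine MB.mono ?_ ?_ (fun t => ?_) y1
    · exact (((hE1c.mul hE2c).norm.pow 2).mul (hBc.norm.pow 2)).mul (hYc j)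
    · exact continuous_const.mul (c1.add (continuous_finsetSum _ c2))
    · have h1 := (hpt t).2.2
      rw [← e1 t, ← e2 t] at h1
      have h2 : 0 ≤ ‖dp N b t‖ ^ 2 * (20 * ‖zf D a a2 j t‖ / R9 κ j) ^ (2 * s7 j) := mul_nonneg (by positivity) (hY0 j t)
      have h3 := mul_le_mul_of_nonneg_right h1 h2
      refine le_trans (le_of_eq (by ring)) (h3.trans (le_of_eq ?_))
      rw [mul_assoc, add_mul, one_mul, Finset.sum_mul]
      congr 2
      exact Finset.sum_congr rfl fun j' _ => by ring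
  -- the integrals of the first kind
  have i1 : ∀ j : ℕ, ∫ t in (T / 2)..(3 * T), ‖dp N b t‖ ^ 2 * (20 * ‖zf D a a2 j t‖ / R9 κ j) ^ (2 * s7 j) ≤
      14 * T * (CS * Real.exp (-(A * j)) * N2 N b) := by
    intro j
    obtain ⟨M, c, hM1, hMl, hc, hdp⟩ := (hCOF κ D hκ1 hD a a2 a a2 (JB D) (j + 1)).2.2 N b hN1 hlN hb
    refine transf (N := M) (c := c) hMVL hT ?_ (fun t => ?_) (w1 j)
    · refine len_le (K := 52 * κ + 5) (δ := δ) (by linarith) hM1 hδ' ?_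
      rw [← hDdef]
      nlinarith
    · rw [hdp t, norm_mul, norm_mul, mul_pow, mul_pow, pw_norm']
      unfold Ef
      rw [Finset.Ico_self, Finset.prod_empty, norm_one]
      ring
  -- the integrals of the second kind
  have i2 : ∀ j : ℕ, ∫ t in (T / 2)..(3 * T), ‖E1 D κ a a2 j₀ t * E2 D κ a a2 j₀ t‖ ^ 2 * ‖dp N b t‖ ^ 2 *
      (20 * ‖zf D a a2 j t‖ / R9 κ j) ^ (2 * s7 j) ≤
      14 * T * (P * (CS * Real.exp (-(A * j)) * N2 N b +
        ∑ j' ∈ Finset.Ico j₀ (JB D), CS * (Real.exp (-(A / 2 * j)) * Real.exp (-(A / 2 * j'))) * N2 N b)) := by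
    intro j
    obtain ⟨M, c, hM1, hMl, hc, hdp⟩ := (hCOF κ D hκ1 hD (fun n => I / 2 * a n) (fun n => I / 2 * a2 n) a a2 j₀ (j + 1)).2.2
      N b hN1 hlN hb
    obtain ⟨hs, he, -⟩ := hCOF κ D hκ1 hD (fun n => -(I / 2) * a n) (fun n => -(I / 2) * a2 n) a a2 j₀ 0
    obtain ⟨e, hedef⟩ : ∃ e, e = ebk D κ (fun n => -(I / 2) * a n) (fun n => -(I / 2) * a2 n) j₀ (JB D - j₀) := ⟨_, rfl⟩
    rw [← hedef] at hs he
    have hz1 : ∀ n, M9 D κ < n → e n = 0 := by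
      intro n hn
      by_contra hcon
      exact absurd (hs n hcon).2 (by omega)
    have hz2 : ∀ n, M < n → c n = 0 := by
      intro n hn
      by_contra hcon
      exact absurd (hc n hcon).2.1 (by omega)
    have hprod := fun t => hDPM.1 (M9 D κ) M e c t hz1 hz2
    have hM9 : 1 ≤ M9 D κ := by
      unfold M9
      rw [Nat.one_le_floor_iff]
      exact Real.one_le_exp (by positivity)
    have hM9l : Real.log (M9 D κ) ≤ 26 * κ * D := by
      have h1 : ((M9 D κ : ℕ) : ℝ) ≤ Real.exp (26 * κ * D) := by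
        unfold M9
        exact Nat.floor_le (Real.exp_pos _).le
      have h2 : (0 : ℝ) < (M9 D κ : ℕ) := by exact_mod_cast hM9
      have := Real.log_le_log h2 h1
      rwa [Real.log_exp] at this
    refine transf (N := M9 D κ * M) (c := cv e c) hMVL hT ?_ (fun t => ?_) (w3 j)
    · refine len_le (K := 52 * κ + 5) (δ := δ) (by linarith) (Nat.mul_pos hM9 hM1) hδ' ?_
      rw [← hDdef]
      push_cast
      have h2 : (0 : ℝ) < (M9 D κ : ℕ) := by exact_mod_cast hM9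
      have h3 : (0 : ℝ) < M := by exact_mod_cast hM1
      rw [Real.log_mul h2.ne' h3.ne']
      nlinarith
    · rw [← hprod t, he t, hdp t]
      have h1 : Ef D κ (fun n => -(I / 2) * a n) (fun n => -(I / 2) * a2 n) j₀ t = E2 D κ a a2 j₀ t := rfl
      have h2 : Ef D κ (fun n => I / 2 * a n) (fun n => I / 2 * a2 n) j₀ t = E1 D κ a a2 j₀ t := rfl
      rw [h1, h2, norm_mul, norm_mul, norm_mul, norm_mul, ← pw_norm']
      ring
  -- the integrand
  have hFc : Continuous fun t => ‖Oe D a a2 j₀ t - OG D κ a a2 j₀ t‖ * ‖dp N b t‖ ^ 2 := by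
    have c1 : Continuous (Oe D a a2 j₀) := by
      unfold Oe ES
      refine Complex.continuous_exp.comp (continuous_const.mul (Complex.continuous_ofReal.comp
        (Complex.continuous_re.comp (continuous_finsetSum _ fun l _ => hzc l))))
    have c2 : Continuous (OG D κ a a2 j₀) := hE1c.mul (Complex.continuous_conj.comp hE2c)
    exact (c1.sub c2).norm.mul (hBc.norm.pow 2)
  have c3 : ∀ j ∈ Finset.Ico j₀ (JB D), Continuous fun t => ‖dp N b t‖ ^ 2 * (20 * ‖zf D a a2 j t‖ / R9 κ j) ^ (2 * s7 j) :=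
    fun j _ => (hBc.norm.pow 2).mul (hYc j)
  have c4 : ∀ j ∈ Finset.Ico j₀ (JB D), Continuous fun t => ‖E1 D κ a a2 j₀ t * E2 D κ a a2 j₀ t‖ ^ 2 * ‖dp N b t‖ ^ 2 *
      (20 * ‖zf D a a2 j t‖ / R9 κ j) ^ (2 * s7 j) :=
    fun j _ => (((hE1c.mul hE2c).norm.pow 2).mul (hBc.norm.pow 2)).mul (hYc j)
  have hFle : ∀ t, ‖Oe D a a2 j₀ t - OG D κ a a2 j₀ t‖ * ‖dp N b t‖ ^ 2 ≤
      P * (Real.exp (-(A * j₀)) * ‖dp N b t‖ ^ 2 +
        (∑ j ∈ Finset.Ico j₀ (JB D), ‖dp N b t‖ ^ 2 * (20 * ‖zf D a a2 j t‖ / R9 κ j) ^ (2 * s7 j)) +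
        ∑ j ∈ Finset.Ico j₀ (JB D), ‖E1 D κ a a2 j₀ t * E2 D κ a a2 j₀ t‖ ^ 2 * ‖dp N b t‖ ^ 2 *
          (20 * ‖zf D a a2 j t‖ / R9 κ j) ^ (2 * s7 j)) := by
    intro t
    have h1 := (hpt t).2.1
    rw [← e1 t, ← e2 t] at h1
    have h2 := mul_le_mul_of_nonneg_right h1 (show 0 ≤ ‖dp N b t‖ ^ 2 by positivity)
    refine le_trans (le_of_eq rfl) (h2.trans (le_of_eq ?_))
    rw [mul_assoc, add_mul, Finset.sum_mul, add_assoc, ← Finset.sum_add_distrib]
    congr 2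
    exact Finset.sum_congr rfl fun j _ => by ring
  have hIle := intervalIntegral.integral_mono (μ := volume) (show T / 2 ≤ 3 * T by linarith)
    (hFc.intervalIntegrable _ _) (Continuous.intervalIntegrable (by
      exact continuous_const.mul (((continuous_const.mul (hBc.norm.pow 2)).add (continuous_finsetSum _ c3)).add
        (continuous_finsetSum _ c4))) _ _) hFle
  refine hIle.trans ?_
  have q1 : IntervalIntegrable (fun t => Real.exp (-(A * j₀)) * ‖dp N b t‖ ^ 2) volume (T / 2) (3 * T) :=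
    (continuous_const.mul (hBc.norm.pow 2)).intervalIntegrable _ _
  have q2 : IntervalIntegrable (fun t => ∑ j ∈ Finset.Ico j₀ (JB D), ‖dp N b t‖ ^ 2 *
      (20 * ‖zf D a a2 j t‖ / R9 κ j) ^ (2 * s7 j)) volume (T / 2) (3 * T) :=
    (continuous_finsetSum _ c3).intervalIntegrable _ _
  have q3 : IntervalIntegrable (fun t => ∑ j ∈ Finset.Ico j₀ (JB D), ‖E1 D κ a a2 j₀ t * E2 D κ a a2 j₀ t‖ ^ 2 *
      ‖dp N b t‖ ^ 2 * (20 * ‖zf D a a2 j t‖ / R9 κ j) ^ (2 * s7 j)) volume (T / 2) (3 * T) :=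
    (continuous_finsetSum _ c4).intervalIntegrable _ _
  have q12 : IntervalIntegrable (fun t => Real.exp (-(A * j₀)) * ‖dp N b t‖ ^ 2 +
      ∑ j ∈ Finset.Ico j₀ (JB D), ‖dp N b t‖ ^ 2 *
      (20 * ‖zf D a a2 j t‖ / R9 κ j) ^ (2 * s7 j)) volume (T / 2) (3 * T) := q1.add q2
  rw [intervalIntegral.integral_const_mul, intervalIntegral.integral_add q12 q3,
    intervalIntegral.integral_add q1 q2, intervalIntegral.integral_const_mul,
    intervalIntegral.integral_finsetSum (fun j hj => (c3 j hj).intervalIntegrable _ _),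
    intervalIntegral.integral_finsetSum (fun j hj => (c4 j hj).intervalIntegrable _ _)]
  have k0 := mvl3 hMVL hT hNl b
  have g1 := geo (B := A) (by linarith) j₀ (JB D)
  have g2 := geo (B := A / 2) (by linarith) j₀ (JB D)
  have k1 : ∑ j ∈ Finset.Ico j₀ (JB D), ∫ t in (T / 2)..(3 * T), ‖dp N b t‖ ^ 2 *
      (20 * ‖zf D a a2 j t‖ / R9 κ j) ^ (2 * s7 j) ≤ 42 * CS * Real.exp (-(A * j₀)) * (T * N2 N b) := by
    refine (Finset.sum_le_sum fun j _ => i1 j).trans ?_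
    have e : ∀ j ∈ Finset.Ico j₀ (JB D), 14 * T * (CS * Real.exp (-(A * j)) * N2 N b) =
        14 * CS * (T * N2 N b) * Real.exp (-(A * j)) := fun j _ => by ring
    rw [Finset.sum_congr rfl e, ← Finset.mul_sum]
    have := mul_le_mul_of_nonneg_left g1 (show 0 ≤ 14 * CS * (T * N2 N b) by positivity)
    linarith
  have k2 : ∑ j ∈ Finset.Ico j₀ (JB D), ∫ t in (T / 2)..(3 * T), ‖E1 D κ a a2 j₀ t * E2 D κ a a2 j₀ t‖ ^ 2 * ‖dp N b t‖ ^ 2 *
      (20 * ‖zf D a a2 j t‖ / R9 κ j) ^ (2 * s7 j) ≤ 168 * P * CS * Real.exp (-(A * j₀)) * (T * N2 N b) := by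
    refine (Finset.sum_le_sum fun j _ => i2 j).trans ?_
    have e : ∀ j ∈ Finset.Ico j₀ (JB D), 14 * T * (P * (CS * Real.exp (-(A * j)) * N2 N b +
        ∑ j' ∈ Finset.Ico j₀ (JB D), CS * (Real.exp (-(A / 2 * j)) * Real.exp (-(A / 2 * j'))) * N2 N b)) =
        14 * P * CS * (T * N2 N b) * (Real.exp (-(A * j)) +
          Real.exp (-(A / 2 * j)) * ∑ j' ∈ Finset.Ico j₀ (JB D), Real.exp (-(A / 2 * j'))) := by
      intro j _
      have e' : ∑ j' ∈ Finset.Ico j₀ (JB D), CS * (Real.exp (-(A / 2 * j)) * Real.exp (-(A / 2 * j'))) * N2 N b =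
          CS * N2 N b * (Real.exp (-(A / 2 * j)) * ∑ j' ∈ Finset.Ico j₀ (JB D), Real.exp (-(A / 2 * j'))) := by
        rw [Finset.mul_sum, Finset.mul_sum]
        exact Finset.sum_congr rfl fun j' _ => by ring
      rw [e']
      ring
    rw [Finset.sum_congr rfl e, ← Finset.mul_sum, Finset.sum_add_distrib, ← Finset.sum_mul]
    have hs0 : 0 ≤ ∑ j ∈ Finset.Ico j₀ (JB D), Real.exp (-(A / 2 * (j : ℝ))) :=
      Finset.sum_nonneg fun j _ => (Real.exp_pos _).le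
    have h1 : (∑ j ∈ Finset.Ico j₀ (JB D), Real.exp (-(A / 2 * (j : ℝ)))) *
        (∑ j ∈ Finset.Ico j₀ (JB D), Real.exp (-(A / 2 * (j : ℝ)))) ≤ 9 * Real.exp (-(A * j₀)) := by
      have h2 := mul_le_mul g2 g2 hs0 (by positivity)
      refine h2.trans (le_of_eq ?_)
      have h3 : Real.exp (-(A * (j₀ : ℝ))) = Real.exp (-(A / 2 * (j₀ : ℝ))) * Real.exp (-(A / 2 * (j₀ : ℝ))) := by
        rw [← Real.exp_add]
        congr 1
        ring
      rw [h3]
      ring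
    have := mul_le_mul_of_nonneg_left (add_le_add g1 h1) (show 0 ≤ 14 * P * CS * (T * N2 N b) by positivity)
    linarith
  have k3 : Real.exp (-(A * j₀)) * ∫ t in (T / 2)..(3 * T), ‖dp N b t‖ ^ 2 ≤ 7 * Real.exp (-(A * j₀)) * (T * N2 N b) := by
    have := mul_le_mul_of_nonneg_left k0 (Real.exp_pos (-(A * (j₀ : ℝ)))).le
    linarith
  have k4 := mul_le_mul_of_nonneg_left (add_le_add (add_le_add k3 k1) k2) hP0
  refine k4.trans (le_of_eq ?_)
  ring

end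

end Run7.h299.UC
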